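import Pool.Agent.W861.TF.Stm

set_option autoImplicit false

open Pool.Agent.W861.TF
open scoped Kronecker

namespace Pool.Agent.W503.TF

/-- the Hadamard matrix of order 4 -/
def H4 : Matrix (Fin 4) (Fin 4) ℤ := !![1, 1, 1, 1; 1, -1, 1, -1; 1, 1, -1, -1; 1, -1, -1, 1]

lemma H4_sq : H4 * H4 = (4 : ℤ) • (1 : Matrix (Fin 4) (Fin 4) ℤ) := by decide

lemma H4_pm : ∀ x l, H4 x l = 1 ∨ H4 x l = -1 := by
  intro x l
  fin_cases x <;> fin_cases l <;> simp [H4]

theorem had : S_HAD := by
  intro τ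
  induction τ with
  | zero =>
    refine ⟨1, fun i j => ?_, ?_⟩
    · fin_cases i
      fin_cases j
      left
      simp
    · simp
  | succ τ ih =>
    obtain ⟨H, h1, h2⟩ := ih
    let e : Fin (4 ^ τ) × Fin 4 ≃ Fin (4 ^ (τ + 1)) := finProdFinEquiv
    refine ⟨Matrix.reindex e e (H ⊗ₖ H4), ?_, ?_⟩
    · intro x l
      simp only [Matrix.reindex_apply, Matrix.submatrix_apply, Matrix.kroneckerMap_apply]
      rcases h1 (e.symm x).1 (e.symm l).1 with a | a <;>
      rcases H4_pm (e.symm x).2 (e.symm l).2 with b | b <;> rw [a, b] <;> simp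
    · simp only [Matrix.reindex_apply]
      rw [Matrix.submatrix_mul_equiv, ← Matrix.mul_kronecker_mul, h2, H4_sq,
        Matrix.smul_kronecker, Matrix.kronecker_smul, Matrix.one_kronecker_one, smul_smul,
        Matrix.submatrix_smul]
      simp only [Pi.smul_apply, Matrix.submatrix_one_equiv]
      congr 1

end Pool.Agent.W503.TF
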