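import Pool.Agent.W861.TF.Stm

set_option autoImplicit false

open Pool.Agent.W861.TF

namespace Pool.Agent.W503.TF

/-- independent rows have an invertible square submatrix -/
lemma exists_cols {ι : Type} [Fintype ι] {n : ℕ} (Y : ι → Fin n → ℝ)
    (h : LinearIndependent ℝ Y) : ∃ e : ι → Fin n, Function.Injective e ∧
      LinearIndependent ℝ (fun i : ι => fun j : ι => Y j (e i)) := by
  classical
  have h1 : (Matrix.of Y).rank = Fintype.card ι := LinearIndependent.rank_matrix h
  have h2 := (Matrix.of Y).rank_eq_finrank_span_cols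
  rw [h1] at h2
  obtain ⟨κ, a, ha1, ha2, ha3⟩ := exists_linearIndependent' ℝ (Matrix.of Y).col
  have hfin : Finite κ := Finite.of_injective a ha1
  haveI := Fintype.ofFinite κ
  have h3 : Fintype.card κ = Fintype.card ι := by
    rw [h2, ← ha2]
    exact (finrank_span_eq_card ha3).symm
  let g : ι ≃ κ := (Fintype.equivOfCardEq h3).symm
  refine ⟨a ∘ g, ha1.comp g.injective, ?_⟩
  exact (linearIndependent_equiv g).2 ha3

theorem modp : S_MOD := by
  intro p n B hp ι _ y hy hB hlt
  classical
  obtain ⟨e, he, hind⟩ := exists_cols (fun j => toR (y j)) hy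
  set Z : Matrix ι ι ℤ := Matrix.of fun j i => y j (e i) with hZ
  have hdetR : (Z.map (Int.cast : ℤ → ℝ)).det ≠ 0 := by
    have h1 : LinearIndependent ℝ (Z.map (Int.cast : ℤ → ℝ)).col := by
      exact hind
    rw [Matrix.linearIndependent_cols_iff_isUnit] at h1
    have := (Matrix.isUnit_iff_isUnit_det _).1 h1
    exact this.ne_zero
  have hdet0 : Z.det ≠ 0 := by
    intro h0
    apply hdetR
    have := (Int.castRingHom ℝ).map_det Z
    rw [h0, map_zero] at this
    exact this.symm
  have hdetb : |Z.det| ≤ ((Fintype.card ι).factorial * B ^ (Fintype.card ι) : ℕ) := by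
    have := Matrix.det_le (A := Z) (abv := (AbsoluteValue.abs : AbsoluteValue ℤ ℤ)) (x := (B : ℤ))
      (fun i j => hB i (e j))
    rw [nsmul_eq_mul] at this
    push_cast
    exact this
  have hdetp : ((Z.det : ℤ) : ZMod p) ≠ 0 := by
    intro h0
    rw [ZMod.intCast_zmod_eq_zero_iff_dvd] at h0
    have h1 := Int.le_of_dvd (abs_pos.2 hdet0) ((dvd_abs _ _).2 h0)
    have h2 : ((Fintype.card ι).factorial * B ^ (Fintype.card ι) : ℕ) < p := hlt
    have h3 : (p : ℤ) ≤ ((Fintype.card ι).factorial * B ^ (Fintype.card ι) : ℕ) := h1.trans hdetb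
    have h4 : p ≤ ((Fintype.card ι).factorial * B ^ (Fintype.card ι) : ℕ) := by exact_mod_cast h3
    omega
  have hdetz : (Z.map (Int.cast : ℤ → ZMod p)).det ≠ 0 := by
    have := (Int.castRingHom (ZMod p)).map_det Z
    intro h0
    apply hdetp
    have h5 : (Int.castRingHom (ZMod p)) Z.det = ((Int.castRingHom (ZMod p)).mapMatrix Z).det := this
    have h6 : ((Int.castRingHom (ZMod p)).mapMatrix Z).det = (Z.map (Int.cast : ℤ → ZMod p)).det := rfl
    rw [h6, h0] at h5
    exact h5
  -- injection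
  have hinj : Set.InjOn (fun (a : Fin n → ZMod p) (i : {i : Fin n // i ∉ Set.range e}) => a i)
      {a : Fin n → ZMod p | ∀ j, Orth p a (y j)} := by
    intro a ha b hb hab
    have hab' : ∀ i, i ∉ Set.range e → a i = b i := fun i hi => congrFun hab ⟨i, hi⟩
    have hmul : (Z.map (Int.cast : ℤ → ZMod p)).mulVec (fun i => a (e i) - b (e i)) = 0 := by
      funext j
      have h1 : ∑ i, ((y j i : ℤ) : ZMod p) * (a i - b i) = 0 := by
        have a1 : ∑ i, ((y j i : ℤ) : ZMod p) * a i = 0 := ha j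
        have b1 : ∑ i, ((y j i : ℤ) : ZMod p) * b i = 0 := hb j
        simp only [mul_sub, Finset.sum_sub_distrib]
        rw [a1, b1, sub_zero]
      have h2 : ∑ i ∈ Finset.univ.image e, ((y j i : ℤ) : ZMod p) * (a i - b i) =
          ∑ i, ((y j i : ℤ) : ZMod p) * (a i - b i) := by
        apply Finset.sum_subset (Finset.subset_univ _)
        intro i _ hi
        have : i ∉ Set.range e := by
          intro ⟨k, hk⟩
          exact hi (Finset.mem_image.2 ⟨k, Finset.mem_univ _, hk⟩)
        rw [hab' i this, sub_self, mul_zero]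
      rw [Finset.sum_image (fun x _ y _ hxy => he hxy)] at h2
      rw [h1] at h2
      exact h2
    have hzero := Matrix.eq_zero_of_mulVec_eq_zero hdetz hmul
    funext i
    by_cases hi : i ∈ Set.range e
    · obtain ⟨k, rfl⟩ := hi
      exact sub_eq_zero.1 (congrFun hzero k)
    · exact hab' i hi
  have hcard : Set.ncard {a : Fin n → ZMod p | ∀ j, Orth p a (y j)} ≤
      Fintype.card ({i : Fin n // i ∉ Set.range e} → ZMod p) := by
    have h1 := Set.InjOn.ncard_image hinj
    rw [← h1, ← Nat.card_eq_fintype_card, ← Set.ncard_univ]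
    exact Set.ncard_le_ncard (Set.subset_univ _) Set.finite_univ
  have hc : Fintype.card {i : Fin n // i ∉ Set.range e} = n - Fintype.card ι := by
    rw [Fintype.card_subtype_compl, Fintype.card_fin]
    congr 1
    exact Fintype.card_congr (Equiv.ofInjective e he).symm
  have hle : Fintype.card ι ≤ n := by
    have := Fintype.card_le_of_injective e he
    rwa [Fintype.card_fin] at this
  rw [Fintype.card_fun, ZMod.card, hc] at hcard
  calc _ ≤ p ^ (n - Fintype.card ι) * p ^ (Fintype.card ι) := Nat.mul_le_mul_right _ hcard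
    _ = p ^ n := by rw [← pow_add, Nat.sub_add_cancel hle]

theorem sv (hm : S_MOD) : S_SV := by
  intro p n q hp hq hn hqp
  classical
  haveI : Fintype (Fin n → ZMod p) := inferInstance
  set M : ℕ := 2 * (q / 4) + 1 with hM
  -- the box
  set Bx : Finset (Fin n → ℤ) := Fintype.piFinset (fun _ => Finset.Icc (-((q / 4 : ℕ) : ℤ)) (q / 4 : ℕ)) with hBx
  have hBxc : Bx.card = M ^ n := by
    rw [hBx, Fintype.card_piFinset]
    simp only [Int.card_Icc, Finset.prod_const, Finset.card_univ, Fintype.card_fin]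
    congr 1
    omega
  have hqpos : 0 < q := by omega
  have hq2 : q < p := by
    calc q < q ^ 2 := by nlinarith
      _ ≤ q ^ n := Nat.pow_le_pow_right hqpos hn
      _ ≤ p := hqp
  have hsub : {a : Fin n → ZMod p | ∃ x : Fin n → ℤ, Orth p a x ∧ x ≠ 0 ∧ ∀ i, 4 * |x i| ≤ (q : ℤ)} ⊆
      ⋃ x ∈ Bx.filter (fun x => x ≠ 0), {a : Fin n → ZMod p | Orth p a x} := by
    rintro a ⟨x, h1, h2, h3⟩
    rw [Set.mem_iUnion₂]
    refine ⟨x, ?_, h1⟩
    rw [Finset.mem_filter, hBx, Fintype.mem_piFinset]
    refine ⟨fun i => ?_, h2⟩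
    have := h3 i
    rw [Finset.mem_Icc]
    have h4 := le_abs_self (x i)
    have h5 := neg_abs_le (x i)
    constructor <;> omega
  have hone : ∀ x ∈ Bx.filter (fun x => x ≠ 0),
      Set.ncard {a : Fin n → ZMod p | Orth p a x} * p ≤ p ^ n := by
    intro x hx
    rw [Finset.mem_filter, hBx, Fintype.mem_piFinset] at hx
    obtain ⟨hx1, hx2⟩ := hx
    have := hm p n q Unit (fun _ => x) (by
      rw [linearIndependent_unique_iff]
      intro h0
      apply hx2
      funext i
      have := congrFun h0 i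
      simpa [toR] using this) (by
      intro _ i
      have := Finset.mem_Icc.1 (hx1 i)
      rw [abs_le]
      constructor <;> omega) (by simpa using hq2)
    simpa using this
  have hcard : Set.ncard {a : Fin n → ZMod p | ∃ x : Fin n → ℤ, Orth p a x ∧ x ≠ 0 ∧
      ∀ i, 4 * |x i| ≤ (q : ℤ)} ≤
      ∑ x ∈ Bx.filter (fun x => x ≠ 0), Set.ncard {a : Fin n → ZMod p | Orth p a x} := by
    refine (Set.ncard_le_ncard hsub (Set.toFinite _)).trans ?_
    exact Finset.set_ncard_biUnion_le _ _
  set N := Set.ncard {a : Fin n → ZMod p | ∃ x : Fin n → ℤ, Orth p a x ∧ x ≠ 0 ∧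
      ∀ i, 4 * |x i| ≤ (q : ℤ)} with hN
  have h1 : N * p ≤ M ^ n * p ^ n := by
    calc N * p ≤ (∑ x ∈ Bx.filter (fun x => x ≠ 0), Set.ncard {a : Fin n → ZMod p | Orth p a x}) * p :=
          Nat.mul_le_mul_right _ hcard
      _ = ∑ x ∈ Bx.filter (fun x => x ≠ 0), Set.ncard {a : Fin n → ZMod p | Orth p a x} * p :=
          Finset.sum_mul _ _ _
      _ ≤ ∑ x ∈ Bx.filter (fun x => x ≠ 0), p ^ n := Finset.sum_le_sum hone
      _ = (Bx.filter (fun x => x ≠ 0)).card * p ^ n := by rw [Finset.sum_const, smul_eq_mul]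
      _ ≤ Bx.card * p ^ n := Nat.mul_le_mul_right _ (Finset.card_filter_le _ _)
      _ = M ^ n * p ^ n := by rw [hBxc]
  have h2 : N * 4 ^ n * q ^ n ≤ 3 ^ n * p ^ n * q ^ n := by
    calc N * 4 ^ n * q ^ n = N * q ^ n * 4 ^ n := by ring
      _ ≤ N * p * 4 ^ n := by gcongr
      _ ≤ M ^ n * p ^ n * 4 ^ n := by gcongr
      _ = (4 * M) ^ n * p ^ n := by rw [mul_pow]; ring
      _ ≤ (3 * q) ^ n * p ^ n := by
          have h43 : 4 * M ≤ 3 * q := by
            rw [hM]
            omega
          gcongr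
      _ = 3 ^ n * p ^ n * q ^ n := by rw [mul_pow]; ring
  exact Nat.le_of_mul_le_mul_right h2 (pow_pos hqpos n)

end Pool.Agent.W503.TF
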